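import Pool.Graph.R_pool_sql_team_seeded_3997aac3.Q279.FB.Main
import Pool.Graph.R_pool_sql_team_seeded_3997aac3.Q237.SX.Ram2
import Pool.Agent.H465.OC.StmB

/-!
# OC-B18 (helper92 for helper465): the coefficients of `E_k/(j - c)`
-/

set_option autoImplicit false

namespace Pool.Agent.H92.OCLinkG

open PowerSeries Pool.Agent.Q279.SC Pool.Agent.H465.OC

noncomputable section

theorem map_map' {R S : Type} [CommRing R] [CommRing S] (φ : R →+* S) (f : ℤ⟦X⟧) :
    PowerSeries.map φ (PowerSeries.map (Int.castRingHom R) f) =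
      PowerSeries.map (Int.castRingHom S) f := by
  ext n
  simp

/-- The coefficient of `E_k/(j - c)` in terms of a `p`-adic power series. -/
theorem linkG (hRam : Ram) (p : ℕ) [Fact p.Prime] (k : ℕ) (ez : ℤ⟦X⟧)
    (hE : Q279.FB.E k = PowerSeries.map (Int.castRingHom ℚ) ez) (c : ℚ) (c' : ℤ_[p])
    (Φ : ℤ_[p]⟦X⟧) (hc : (c' : ℚ_[p]) = (c : ℚ_[p]))
    (hΦ : Φ * (q4 ℤ_[p] ^ 3 - C c' * qD ℤ_[p]) =
      PowerSeries.map (Int.castRingHom ℤ_[p]) ez * qd ℤ_[p]) (m : ℕ) :
    (((Q279.FB.F k 1 c).coeff ((m + 1 : ℕ) : ℤ) : ℚ) : ℚ_[p]) =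
      ((coeff m Φ : ℤ_[p]) : ℚ_[p]) := by
  classical
  -- power series over ℚ
  have hp := (Fact.out : p.Prime)
  set κ : ℤ →+* ℚ := Int.castRingHom ℚ with hκ
  set T : ℚ⟦X⟧ := PowerSeries.map κ z4 ^ 3 - C c * PowerSeries.map κ zD with hT
  have hz40 : constantCoeff z4 = 1 := by
    simp [z4, zA]
  have hzD0 : constantCoeff zD = 0 := by
    rw [hRam.2.1]; simp
  have hT0 : constantCoeff T = 1 := by
    rw [hT, map_sub, map_mul, map_pow]
    rw [show constantCoeff (PowerSeries.map κ z4) = κ (constantCoeff z4) from rfl,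
      show constantCoeff (PowerSeries.map κ zD) = κ (constantCoeff zD) from rfl, hz40, hzD0]
    simp
  have hTT : T * T⁻¹ = 1 := PowerSeries.mul_inv_cancel _ (by rw [hT0]; exact one_ne_zero)
  -- the Laurent series is X * Ψ
  set Ψ : ℚ⟦X⟧ := PowerSeries.map κ ez * PowerSeries.map κ zd * T⁻¹ with hΨ
  have hzD : PowerSeries.map κ zD = X * PowerSeries.map κ zd := by
    rw [hRam.2.1, map_mul, PowerSeries.map_X]
  have hzdne : (PowerSeries.map κ zd : ℚ⟦X⟧) ≠ 0 := by
    intro h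
    have := congrArg (constantCoeff (R := ℚ)) h
    rw [show constantCoeff (PowerSeries.map κ zd) = κ (constantCoeff zd) from rfl,
      hRam.2.2.1] at this
    simp at this
  have hF : Q279.FB.F k 1 c = ((X * Ψ : ℚ⟦X⟧) : LaurentSeries ℚ) := by
    unfold Q279.FB.F Q279.FB.j
    have e4 : Q279.FB.E 4 = PowerSeries.map κ z4 := Q279.FB.E4_eq
    have eD : Q279.FB.Delta = PowerSeries.map κ zD := Q279.FB.Delta_eq
    rw [hE, e4, eD, pow_one]
    set a : LaurentSeries ℚ := ((PowerSeries.map κ z4 : ℚ⟦X⟧) : LaurentSeries ℚ) with ha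
    set b : LaurentSeries ℚ := ((PowerSeries.map κ zD : ℚ⟦X⟧) : LaurentSeries ℚ) with hb
    set d : LaurentSeries ℚ := ((PowerSeries.map κ ez : ℚ⟦X⟧) : LaurentSeries ℚ) with hd
    have hb0 : b ≠ 0 := by
      rw [hb]
      intro h
      have h1 : (PowerSeries.map κ zD : ℚ⟦X⟧) = 0 := by
        have := HahnSeries.ofPowerSeries_injective (Γ := ℤ) (R := ℚ)
          (a₁ := PowerSeries.map κ zD) (a₂ := 0) (by simpa using h)
        exact this
      rw [hzD] at h1
      rcases mul_eq_zero.1 h1 with h2 | h2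
      · exact PowerSeries.X_ne_zero h2
      · exact hzdne h2
    have hTl : ((T : ℚ⟦X⟧) : LaurentSeries ℚ) = a ^ 3 - HahnSeries.C c * b := by
      rw [hT]
      have h1 : ((C c : ℚ⟦X⟧) : LaurentSeries ℚ) = HahnSeries.C c := by
        simp [HahnSeries.ofPowerSeries_C]
      push_cast
      rw [h1]
    have hT1 : ((T : ℚ⟦X⟧) : LaurentSeries ℚ) ≠ 0 := by
      intro h
      have h1 := HahnSeries.ofPowerSeries_injective (Γ := ℤ) (R := ℚ)
          (a₁ := T) (a₂ := 0) (by simpa using h)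
      rw [h1] at hT0
      simp at hT0
    have hX : ((X * Ψ : ℚ⟦X⟧) : LaurentSeries ℚ) * ((T : ℚ⟦X⟧) : LaurentSeries ℚ) = d * b := by
      rw [hd, hb, ← PowerSeries.coe_mul, ← PowerSeries.coe_mul, hzD, hΨ]
      congr 1
      calc X * (PowerSeries.map κ ez * PowerSeries.map κ zd * T⁻¹) * T
          = PowerSeries.map κ ez * (X * PowerSeries.map κ zd) * (T * T⁻¹) := by ring
        _ = _ := by rw [hTT, mul_one]
    have h2 : a ^ 3 / b - HahnSeries.C c = ((T : ℚ⟦X⟧) : LaurentSeries ℚ) / b := by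
      rw [hTl]
      field_simp
    rw [h2, div_div_eq_mul_div, div_eq_iff hT1, ← hX]
  have hcoef : (Q279.FB.F k 1 c).coeff ((m + 1 : ℕ) : ℤ) = coeff m Ψ := by
    rw [hF]
    have := PowerSeries.coeff_coe (R := ℚ) (X * Ψ) ((m + 1 : ℕ) : ℤ)
    rw [this, if_neg (by omega)]
    have h1 : ((m + 1 : ℕ) : ℤ).natAbs = m + 1 := by omega
    rw [h1, coeff_succ_X_mul]
  rw [hcoef]
  -- compare over ℚ_p
  set μ : ℚ →+* ℚ_[p] := Rat.castHom ℚ_[p]
  set ν : ℤ_[p] →+* ℚ_[p] := PadicInt.Coe.ringHom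
  have key : PowerSeries.map μ Ψ = PowerSeries.map ν Φ := by
    have hμT : PowerSeries.map μ T ≠ 0 := by
      intro h
      have := congrArg (constantCoeff (R := ℚ_[p])) h
      rw [show constantCoeff (PowerSeries.map μ T) = μ (constantCoeff T) from rfl, hT0] at this
      simp at this
    have e1 : PowerSeries.map μ Ψ * PowerSeries.map μ T =
        PowerSeries.map (Int.castRingHom ℚ_[p]) ez * qd ℚ_[p] := by
      rw [← map_mul]
      have : Ψ * T = PowerSeries.map κ ez * PowerSeries.map κ zd := by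
        rw [hΨ, mul_assoc, mul_comm T⁻¹ T, hTT, mul_one]
      rw [this, map_mul]
      unfold qd
      rw [map_map', map_map']
    have e2 : PowerSeries.map ν Φ * PowerSeries.map μ T =
        PowerSeries.map (Int.castRingHom ℚ_[p]) ez * qd ℚ_[p] := by
      have h1 := congrArg (PowerSeries.map ν) hΦ
      rw [map_mul, map_mul] at h1
      have h2 : PowerSeries.map ν (q4 ℤ_[p] ^ 3 - C c' * qD ℤ_[p]) = PowerSeries.map μ T := by
        rw [hT, map_sub, map_sub, map_pow, map_pow, map_mul, map_mul, PowerSeries.map_C,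
          PowerSeries.map_C]
        have h3 : ν c' = μ c := hc
        rw [h3]
        unfold q4 qD
        rw [map_map', map_map', map_map', map_map']
      rw [h2] at h1
      rw [h1]
      unfold qd
      rw [map_map', map_map']
    exact mul_right_cancel₀ hμT (e1.trans e2.symm)
  have := congrArg (coeff m) key
  rw [PowerSeries.coeff_map, PowerSeries.coeff_map] at this
  exact this

theorem ee_eq (i : Fin 6) (R : Type) [CommRing R] :
    ee R i = PowerSeries.map (Int.castRingHom R)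
      ((![z4 ^ 2 * z6, z4 * z6, z4 ^ 2, z6, z4, 1] : Fin 6 → ℤ⟦X⟧) i) := by
  fin_cases i <;> simp [ee, q4, q6]

theorem E_eq (h : EisId) (i : Fin 6) (hi : (i : ℕ) < 5) :
    Q279.FB.E (14 - rr i) = PowerSeries.map (Int.castRingHom ℚ)
      ((![z4 ^ 2 * z6, z4 * z6, z4 ^ 2, z6, z4, 1] : Fin 6 → ℤ⟦X⟧) i) := by
  obtain ⟨h8, h10, h14⟩ := h
  have e4 : Q279.FB.E 4 = PowerSeries.map (Int.castRingHom ℚ) z4 := Q279.FB.E4_eq
  have e6 : Q279.FB.E 6 = PowerSeries.map (Int.castRingHom ℚ) z6 := Q279.FB.E6_eq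
  fin_cases i
  · change Q279.FB.E 14 = PowerSeries.map (Int.castRingHom ℚ) (z4 ^ 2 * z6)
    rw [h14, e4, e6, map_mul, map_pow]
  · change Q279.FB.E 10 = PowerSeries.map (Int.castRingHom ℚ) (z4 * z6)
    rw [h10, e4, e6, map_mul]
  · change Q279.FB.E 8 = PowerSeries.map (Int.castRingHom ℚ) (z4 ^ 2)
    rw [h8, e4, map_pow]
  · exact e6
  · exact e4
  · exact absurd hi (by decide)

theorem main : EisId → LinkG := by
  intro h p _ i hi c c' hc Φ hΦ m hm
  obtain ⟨m, rfl⟩ : ∃ n, m = n + 1 := ⟨m - 1, by omega⟩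
  rw [Q279.FB.a_nat, Nat.add_sub_cancel]
  rw [ee_eq] at hΦ
  exact linkG Pool.Agent.Q237.SX.ram p (14 - rr i) _ (E_eq h i hi) c c' Φ hc hΦ m

end

end Pool.Agent.H92.OCLinkG
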